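import Mathlib

/-!
# MP_cc703c_co: the Cairns-type 2-complex has a linear realization in four-space
-/

open Finset

namespace Pool.Agent.Results.MP_cc703c_co.FourSpace

/-! ### complexes of convex polytopes -/

/-- `ℝ^m` -/
abbrev Eu (m : ℕ) := EuclideanSpace ℝ (Fin m)

/-- `P` is a convex polytope: the convex hull of a finite set of points (`∅` included) -/
def IsPolytope {m : ℕ} (P : Set (Eu m)) : Prop :=
  ∃ s : Set (Eu m), s.Finite ∧ P = convexHull ℝ s

/-- `F` is a face of `P`: a convex subset such that whenever a point of `F` lies in an open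
segment with ends in `P`, the ends lie in `F` (`∅` and `P` included) -/
def IsFace {m : ℕ} (P F : Set (Eu m)) : Prop :=
  Convex ℝ F ∧ IsExtreme ℝ P F

/-- a complex: a finite family of convex polytopes such that every face of a member is a member
and any two members intersect in a face of each -/
structure IsComplex {m : ℕ} (K : Set (Set (Eu m))) : Prop where
  finite : K.Finite
  polytope : ∀ P ∈ K, IsPolytope P
  face_mem : ∀ P ∈ K, ∀ F, IsFace P F → F ∈ K
  inter : ∀ P ∈ K, ∀ Q ∈ K, IsFace P (P ∩ Q) ∧ IsFace Q (P ∩ Q)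

/-! ### the abstract complex `𝒞` -/

/-- the ten vertices -/
abbrev V := Fin 10

abbrev A0 : V := 0
abbrev A1 : V := 1
abbrev B1 : V := 2
abbrev B2 : V := 3
abbrev B3 : V := 4
abbrev B4 : V := 5
abbrev C : V := 6
abbrev D1 : V := 7
abbrev D2 : V := 8
abbrev D3 : V := 9

/-- the 25 triangles and the four further edges -/
def facets : List (List V) :=
  [[A0, B1, B2], [A0, B2, B3], [A0, B3, B1], [A1, B1, B2], [A1, B2, B4], [A1, B4, B3],
   [A1, B3, B1], [C, B2, B3], [C, B3, B4], [C, B4, B2],
   [C, A0, B1], [C, A0, B2], [C, A0, B3], [C, A1, B1], [C, A1, B2], [C, A1, B3], [C, A1, B4],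
   [C, B1, B2], [C, B1, B3],
   [D1, D2, B3], [D2, D3, B1], [D3, D1, B2], [B1, B2, D3], [B2, B3, D1], [B3, B1, D2],
   [A0, A1], [C, D1], [C, D2], [C, D3]]

/-- the faces of `𝒞` (the empty face included): the subsets of the triangles and edges above -/
def IsFaceC (s : Finset V) : Prop := ∃ t ∈ facets, s ⊆ t.toFinset

/-- the complex `K` is combinatorially equivalent to `𝒞`: there is a bijection of the members of
`K` with the faces of `𝒞` preserving inclusion in both directions -/
def EquivC {m : ℕ} (K : Set (Set (Eu m))) : Prop :=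
  Nonempty ({P : Set (Eu m) // P ∈ K} ≃o {s : Finset V // IsFaceC s})

/-- `b(𝒞)`: the least `m` such that `ℝ^m` contains a complex combinatorially equivalent to `𝒞` -/
noncomputable def b : ℕ := sInf {m | ∃ K : Set (Set (Eu m)), IsComplex K ∧ EquivC K}

/-! ### the realization in `ℝ^4` -/

/-- integer coordinates -/
def crd : V → Fin 4 → ℤ :=
  ![![-1, 2, -1, -2], ![-1, -2, 0, 0], ![-1, 2, 2, -1], ![-1, 1, 0, 1], ![-2, -2, -2, 1],
    ![2, 0, 0, 2], ![2, 0, -1, 2], ![1, -1, 2, 2], ![-2, -2, -2, 2], ![-1, -1, 1, 0]]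

/-- value of an affine functional at a vertex -/
def ev (c : ℤ × ℤ × ℤ × ℤ × ℤ) (v : V) : ℤ :=
  c.1 * crd v 0 + c.2.1 * crd v 1 + c.2.2.1 * crd v 2 + c.2.2.2.1 * crd v 3 + c.2.2.2.2

/-- decoding of a functional -/
def dec (n : ℕ) : ℤ × ℤ × ℤ × ℤ × ℤ :=
  ((n / 100000000 : ℕ) - 50, (n / 1000000 % 100 : ℕ) - 50, (n / 10000 % 100 : ℕ) - 50,
    (n / 100 % 100 : ℕ) - 50, (n % 100 : ℕ) - 50)

/-- separating functionals, one for every pair of facets -/
def seps : List ℕ := [
  5051515049, 5449505056, 5052495048, 5051505049, 5051505050, 5051495050, 5050504951,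
  5051505050, 5050504951, 4949505051, 5051515049, 5050515051, 4951495049, 5051505049,
  5051505050, 5051505050, 5050494951, 5053485048, 5051505051, 5051495050, 5051505049,
  5050494951, 5050504951, 5051495050, 5051505150, 4950505051, 5050504952, 5051505050,
  5051495149, 5050495050, 5050495050, 4951505050, 5051495050, 5050504951, 4951505050,
  4950495049, 4949505051, 4950505049, 4950515050, 4951495049, 4950495049, 4951505050,
  4951505051, 4950495049, 4952485048, 4951505050, 5151484952, 5050495050, 5050495050,
  5050504951, 5051495050, 5050485150, 4950505051, 5050504952, 4950495050, 4750504946,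
  4850504948, 4951505050, 5051495050, 5050504951, 5050504951, 5049504952, 4950505049,
  4949514950, 4950515050, 4951495049, 4850504948, 4951505050, 4951505051, 5049504951,
  5049504850, 5050504951, 5150494952, 5050494851, 5050494951, 5050504951, 5051495050,
  5051505252, 4950505051, 5050504952, 4951495051, 5050515050, 5051504952, 5050515250,
  5050504951, 5050514952, 5050504951, 4949505051, 5049515051, 5050515051, 4950515249,
  5050515050, 5051504952, 4951505051, 5050494951, 4949535348, 5051504953, 5551474958,
  5051484653, 5050494951, 5050504951, 5350505154, 5050515150, 4950505051, 5050504952,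
  4851485051, 5051504952, 5150505151, 5049525051, 5050514952, 5049504952, 4948515151,
  5049515051, 5050515051, 4950515249, 5150535051, 5050525150, 5051504952, 4948515249,
  4949535348, 5051504953, 5350495054, 5150494952, 5150494952, 5150504853, 5350505154,
  5050505150, 5053514757, 5050515051, 4648515843, 5150505151, 5049515149, 5049515050,
  5049505050, 5048515051, 5049515051, 5049525052, 4950515249, 4949515347, 4951515151,
  5049505148, 5048515051, 5049515149, 5051504953, 5150494952, 5150494952, 5049505149,
  5250494854, 5149505050, 5050505150, 5053514267, 5050514855, 5048515247, 5050504951,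
  5050504951, 5049504952, 4949505051, 5049515051, 4950515050, 4950505049, 4850504948,
  4950504949, 4951505051, 5049504951, 5049515050, 5050504951, 5150494952, 5050494851,
  5050494951, 5050504951, 5049515050, 5051505252, 4950505051, 5050504952, 5050494851,
  4952505052, 5049504952, 4950505150, 5049515051, 5049525052, 4950495149, 5051484950,
  4952505052, 4951495051, 5050494951, 4951505248, 5051495050, 5151484952, 5050495050,
  5050495050, 5151485050, 5051495050, 5050505150, 5050504952, 5050504952, 4951495051,
  5049505050, 5048515051, 5049515051, 5049525052, 4950515249, 4949515347, 4951515151,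
  5049505148, 5048515051, 5049515149, 5150495050, 5150494952, 5150495051, 5049505149,
  5150495050, 5149505050, 5050505150, 5053514267, 5050514855, 5048515247, 4950515249,
  5049515051, 5050515051, 4950515249, 5050515149, 5051515051, 5051505050, 5050515149,
  4950515347, 5051505051, 5051505149, 5151505050, 5050505149, 5151505050, 5051505149,
  5050505150, 5053515051, 5050515051, 5052515051, 5048514953, 5050515051, 5150504950,
  5151504950, 5051505050, 5051505050, 5150504950, 5150504950, 5051505051, 5051495050,
  5151505050, 5150494952, 5151505050, 5051495050, 5051505150, 5050504952, 5050504952,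
  5051505050, 5050515051, 4951485050, 5051495049, 5051505050, 5051505050, 5050494951,
  5053485048, 5051505051, 5051495050, 5050495050, 5050495050, 5151505050, 5051495050,
  5051505150, 5050504952, 5050504952, 5051505050, 5050484950, 5050484950, 4952505052,
  4951495051, 5050494951, 5051485048, 5051495050, 5150494952, 5050495050, 5050495050,
  5150494951, 5051495050, 5150485049, 5050504952, 5050504952, 5050494951, 5150514951,
  5051504952, 5051504952, 5050494951, 5147535051, 5051504953, 5150494952, 5150494852,
  5150494952, 5150504853, 5149515051, 5050515150, 5050504952, 5050504952, 4951484952,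
  5051504952, 5051504952, 5050494951, 4948545448, 5051504953, 5350495054, 5150494952,
  5150494952, 5150504853, 5350505154, 5050505150, 5050504952, 5050504952, 4950485050,
  5049505148, 5049505050, 5148505048, 5051504953, 5150494952, 5049495050, 5049495050,
  5150494852, 5149505050, 5050505150, 5050504952, 5050504952, 5049495049, 5049515149,
  5049515149, 5051504953, 5149505050, 5150494952, 5049505149, 5150504853, 5149505050,
  5050505150, 5053514757, 5050515051, 5048515247, 5053485048, 5051505051, 5051505149,
  5151505050, 5150505051, 5151505050, 5051505149, 5050515150, 5050504952, 5050504952,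
  5051505050, 5051504953, 5150494952, 5150484753, 5150494952, 5150494852, 5051495050,
  5051505252, 5050504952, 5050504952, 4951495051, 5249494952, 5049505049, 5049505149,
  5049505147, 5149505050, 5050505150, 4950505051, 4950514952, 5049505148, 4750504947,
  4950505049, 4650525145, 5049515050, 5051505252, 4950505051, 5050504952, 4951495051,
  5150505051, 4950515049, 5350505154, 5050515150, 4950505051, 5050515051, 5051515050,
  5050504951, 5350505154, 5050515150, 4950505051, 5050504952, 4951505050, 5350495054,
  5050505150, 4950505051, 4950514952, 4950505248, 5051505252, 4950505051, 5050504952,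
  4951495051, 4950505051, 5050504952, 4950495050, 5050515051, 5049505148, 5050495049]

/-- dual functionals, one for every vertex of every facet -/
def duals : List ℕ := [
  5050515149, 5049495051, 5051505048, 5050505149, 5150495050, 4950505049, 5049515050,
  4950505049, 5150495050, 5050515149, 5050515050, 5050515250, 5049504952, 5049505148,
  4950505049, 5049515050, 5051505052, 5050515050, 5049515050, 4950505049, 5051505052,
  5050505149, 5050514953, 5049515051, 5049515050, 4950505052, 5050514953, 5050515050,
  5049515051, 4950505052, 4950505049, 4950495051, 5050515051, 4950505049, 5049515051,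
  5050515051, 5150495050, 5050514953, 5050515051, 4950505049, 4950495051, 5049505148,
  4950505049, 5049515051, 5049505148, 5051505052, 5050514953, 5049505148, 5050515050,
  4950505052, 4951495051, 4950505049, 5049515051, 4950495051, 5049515050, 5050514953,
  4950495051, 4950505048, 5049505147, 5050505148, 4950505049, 5049515050, 4951505050,
  5049495051, 4950505049, 5051505051, 5049485051, 5049524947, 5052495048, 5049505147,
  5049495051, 5050505149, 5150494952, 4950505048, 5050515250, 5050505150, 5050505152,
  4950505051, 4950505052, 4950505048, 4950505052, 4950505049, 4950505052]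

/-- all pairs of facets -/
def prs : List (List V × List V) :=
  (List.range 29).flatMap fun i => ((List.range 29).filter fun j => i < j).map fun j =>
    (facets.getD i [], facets.getD j [])

def good (q : (List V × List V) × ℕ) : Bool :=
  (q.1.1.all fun v => decide (0 ≤ ev (dec q.2) v) &&
    (decide (v ∈ q.1.2) || decide (0 < ev (dec q.2) v))) &&
  (q.1.2.all fun v => decide (ev (dec q.2) v ≤ 0))

def flags : List (List V × V) :=
  facets.flatMap fun t => t.map fun v => (t, v)

def goodD (q : (List V × V) × ℕ) : Bool :=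
  (q.1.1.all fun v => decide (v = q.1.2) || decide (ev (dec q.2) v = 0)) &&
    decide (ev (dec q.2) q.1.2 ≠ 0)

lemma check1 : (prs.zip seps).all good = true ∧ prs.length = seps.length := by decide +kernel

lemma check2 : (flags.zip duals).all goodD = true ∧ flags.length = duals.length := by
  decide +kernel

lemma zip_mem {α β : Type} {l : List α} {l' : List β} (h : l.length = l'.length) {a : α}
    (ha : a ∈ l) : ∃ c, (a, c) ∈ l.zip l' := by
  obtain ⟨i, hi, rfl⟩ := List.mem_iff_getElem.1 ha
  refine ⟨l'[i]'(h ▸ hi), ?_⟩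
  apply List.mem_iff_getElem.2
  refine ⟨i, by simp [List.length_zip]; omega, ?_⟩
  simp

lemma sep {a c : List V} (h : (a, c) ∈ prs) : ∃ n : ℕ,
    (∀ v ∈ a, 0 ≤ ev (dec n) v ∧ (v ∈ c ∨ 0 < ev (dec n) v)) ∧ ∀ v ∈ c, ev (dec n) v ≤ 0 := by
  obtain ⟨n, hn⟩ := zip_mem check1.2 h
  have h1 := List.all_eq_true.1 check1.1 _ hn
  refine ⟨n, ?_, ?_⟩
  · intro v hv
    simp only [good, Bool.and_eq_true, List.all_eq_true, Bool.or_eq_true,
      decide_eq_true_eq] at h1
    exact h1.1 v hv
  · intro v hv
    simp only [good, Bool.and_eq_true, List.all_eq_true, Bool.or_eq_true,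
      decide_eq_true_eq] at h1
    exact h1.2 v hv

lemma dual {a : List V} {v : V} (h : (a, v) ∈ flags) : ∃ n : ℕ,
    (∀ u ∈ a, u = v ∨ ev (dec n) u = 0) ∧ ev (dec n) v ≠ 0 := by
  obtain ⟨n, hn⟩ := zip_mem check2.2 h
  have h1 := List.all_eq_true.1 check2.1 _ hn
  simp only [goodD, Bool.and_eq_true, List.all_eq_true, Bool.or_eq_true,
    decide_eq_true_eq] at h1
  exact ⟨n, h1.1, h1.2⟩

lemma mem_prs : ∀ t ∈ facets, ∀ t' ∈ facets, t = t' ∨ (t, t') ∈ prs ∨ (t', t) ∈ prs := by
  decide +kernel

lemma mem_flags {t : List V} (ht : t ∈ facets) {v : V} (hv : v ∈ t) : (t, v) ∈ flags := by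
  unfold flags
  simp only [List.mem_flatMap, List.mem_map]
  exact ⟨t, ht, v, hv, rfl⟩

/-- the points -/
noncomputable def p (v : V) : Eu 4 := WithLp.toLp 2 fun k => (crd v k : ℝ)

/-- barycentric weights supported on `s` -/
structure Wt (s : Finset V) (w : V → ℝ) : Prop where
  nonneg : ∀ v, 0 ≤ w v
  supp : ∀ v, v ∉ s → w v = 0
  sum : ∑ v, w v = 1

lemma Wt.mono {s t : Finset V} {w : V → ℝ} (h : Wt s w) (hst : s ⊆ t) : Wt t w :=
  ⟨h.nonneg, fun v hv => h.supp v fun hs => hv (hst hs), h.sum⟩

noncomputable def pt (w : V → ℝ) : Eu 4 := ∑ v, w v • p v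

def cell (s : Finset V) : Set (Eu 4) := {x | ∃ w, Wt s w ∧ pt w = x}

noncomputable def fn (c : ℤ × ℤ × ℤ × ℤ × ℤ) (x : Eu 4) : ℝ :=
  c.1 * x 0 + c.2.1 * x 1 + c.2.2.1 * x 2 + c.2.2.2.1 * x 3 + c.2.2.2.2

lemma fn_pt (c : ℤ × ℤ × ℤ × ℤ × ℤ) {w : V → ℝ} (h : ∑ v, w v = 1) :
    fn c (pt w) = ∑ v, w v * (ev c v : ℝ) := by
  have h1 : ∀ k, (pt w) k = ∑ v, w v * (crd v k : ℝ) := by
    intro k
    simp [pt, p]
  unfold fn
  rw [h1, h1, h1, h1]
  have h2 : (c.2.2.2.2 : ℝ) = ∑ v, w v * (c.2.2.2.2 : ℝ) := by
    rw [← Finset.sum_mul, h, one_mul]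
  rw [h2, Finset.mul_sum, Finset.mul_sum, Finset.mul_sum, Finset.mul_sum, ← Finset.sum_add_distrib,
    ← Finset.sum_add_distrib, ← Finset.sum_add_distrib, ← Finset.sum_add_distrib]
  apply Finset.sum_congr rfl
  intro v _
  unfold ev
  push_cast
  ring

lemma uniq_facet {t : List V} (ht : t ∈ facets) {w w' : V → ℝ} (h : Wt t.toFinset w)
    (h' : Wt t.toFinset w') (e : pt w = pt w') : w = w' := by
  funext v
  by_cases hv : v ∈ t
  · obtain ⟨n, h1, h2⟩ := dual (mem_flags ht hv)
    have key : ∀ u : V → ℝ, Wt t.toFinset u →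
        fn (dec n) (pt u) = u v * (ev (dec n) v : ℝ) := by
      intro u hu
      rw [fn_pt _ hu.sum]
      apply Finset.sum_eq_single_of_mem v (Finset.mem_univ v)
      intro b _ hb
      by_cases hbt : b ∈ t
      · rcases h1 b hbt with h3 | h3
        · exact absurd h3 hb
        · rw [h3]; simp
      · rw [hu.supp b (by simpa using hbt), zero_mul]
    have h3 := key w h
    have h4 := key w' h'
    rw [e, h4] at h3
    have h5 : (ev (dec n) v : ℝ) ≠ 0 := by exact_mod_cast h2
    exact (mul_right_cancel₀ h5 h3).symm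
  · rw [h.supp v (by simpa using hv), h'.supp v (by simpa using hv)]

lemma uniq_aux {t t' : List V} (ht' : t' ∈ facets) (hp : (t, t') ∈ prs)
    {w w' : V → ℝ} (h : Wt t.toFinset w) (h' : Wt t'.toFinset w') (e : pt w = pt w') :
    w = w' := by
  obtain ⟨n, h1, h2⟩ := sep hp
  have h3 : 0 ≤ fn (dec n) (pt w) := by
    rw [fn_pt _ h.sum]
    apply Finset.sum_nonneg
    intro v _
    by_cases hv : v ∈ t
    · exact mul_nonneg (h.nonneg v) (by exact_mod_cast (h1 v hv).1)
    · rw [h.supp v (by simpa using hv), zero_mul]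
  have h4 : fn (dec n) (pt w') ≤ 0 := by
    rw [fn_pt _ h'.sum]
    apply Finset.sum_nonpos
    intro v _
    by_cases hv : v ∈ t'
    · exact mul_nonpos_of_nonneg_of_nonpos (h'.nonneg v) (by exact_mod_cast h2 v hv)
    · rw [h'.supp v (by simpa using hv), zero_mul]
  have h5 : ∑ v, w v * (ev (dec n) v : ℝ) = 0 := by
    rw [← fn_pt _ h.sum]
    apply le_antisymm _ h3
    rw [e]; exact h4
  have h6 : ∀ v, w v * (ev (dec n) v : ℝ) = 0 := by
    intro v
    refine (Finset.sum_eq_zero_iff_of_nonneg ?_).1 h5 v (Finset.mem_univ v)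
    intro u _
    by_cases hv : u ∈ t
    · exact mul_nonneg (h.nonneg u) (by exact_mod_cast (h1 u hv).1)
    · rw [h.supp u (by simpa using hv), zero_mul]
  have h7 : Wt t'.toFinset w := by
    refine ⟨h.nonneg, ?_, h.sum⟩
    intro v hv
    have hv' : v ∉ t' := by simpa using hv
    by_cases hvt : v ∈ t
    · rcases (h1 v hvt).2 with h8 | h8
      · exact absurd h8 hv'
      · have h9 : (0 : ℝ) < ev (dec n) v := by exact_mod_cast h8
        rcases mul_eq_zero.1 (h6 v) with h10 | h10
        · exact h10
        · exact absurd h10 h9.ne'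
    · exact h.supp v (by simpa using hvt)
  exact uniq_facet ht' h7 h' e

/-- the weights of a point of the realization are unique -/
lemma uniq {s s' : Finset V} (hs : IsFaceC s) (hs' : IsFaceC s') {w w' : V → ℝ} (h : Wt s w)
    (h' : Wt s' w') (e : pt w = pt w') : w = w' := by
  obtain ⟨t, ht, hst⟩ := hs
  obtain ⟨t', ht', hst'⟩ := hs'
  have g := h.mono hst
  have g' := h'.mono hst'
  rcases mem_prs t ht t' ht' with h1 | h1 | h1
  · subst h1
    exact uniq_facet ht g g' e
  · exact uniq_aux ht' h1 g g' e
  · exact (uniq_aux ht h1 g' g e.symm).symm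

lemma IsFaceC.mono {s t : Finset V} (h : IsFaceC t) (hst : s ⊆ t) : IsFaceC s := by
  obtain ⟨u, hu, htu⟩ := h
  exact ⟨u, hu, hst.trans htu⟩

lemma wt_single {s : Finset V} {v : V} (hv : v ∈ s) : Wt s (Pi.single v 1) := by
  refine ⟨?_, ?_, ?_⟩
  · intro u
    by_cases h : u = v
    · subst h; simp
    · simp [h]
  · intro u hu
    have h : u ≠ v := by rintro rfl; exact hu hv
    simp [h]
  · simp

lemma pt_single (v : V) : pt (Pi.single v 1) = p v := by
  unfold pt
  rw [Finset.sum_eq_single_of_mem v (Finset.mem_univ v)]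
  · simp
  · intro b _ hb
    simp [hb]

lemma pt_comb (a c : ℝ) (w w' : V → ℝ) :
    pt (fun v => a * w v + c * w' v) = a • pt w + c • pt w' := by
  unfold pt
  rw [Finset.smul_sum, Finset.smul_sum, ← Finset.sum_add_distrib]
  apply Finset.sum_congr rfl
  intro v _
  rw [add_smul, mul_smul, mul_smul]

lemma wt_comb {s : Finset V} {a c : ℝ} (ha : 0 ≤ a) (hc : 0 ≤ c) (hac : a + c = 1)
    {w w' : V → ℝ} (h : Wt s w) (h' : Wt s w') : Wt s (fun v => a * w v + c * w' v) := by
  refine ⟨?_, ?_, ?_⟩
  · intro v
    have := h.nonneg v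
    have := h'.nonneg v
    positivity
  · intro v hv
    simp [h.supp v hv, h'.supp v hv]
  · rw [Finset.sum_add_distrib, ← Finset.mul_sum, ← Finset.mul_sum, h.sum, h'.sum]
    linarith

lemma cell_convex (s : Finset V) : Convex ℝ (cell s) := by
  rintro _ ⟨w, hw, rfl⟩ _ ⟨w', hw', rfl⟩ a c ha hc hac
  exact ⟨_, wt_comb ha hc hac hw hw', pt_comb a c w w'⟩

lemma cell_subset_of {s : Finset V} {F : Set (Eu 4)} (hF : Convex ℝ F) (h : ∀ v ∈ s, p v ∈ F) :
    cell s ⊆ F := by
  rintro _ ⟨w, hw, rfl⟩
  have h1 : pt w = ∑ v ∈ s, w v • p v := by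
    unfold pt
    symm
    apply Finset.sum_subset (Finset.subset_univ s)
    intro v _ hv
    rw [hw.supp v hv, zero_smul]
  rw [h1]
  apply hF.sum_mem (fun v _ => hw.nonneg v) _ (fun v hv => h v hv)
  rw [← hw.sum]
  apply Finset.sum_subset (Finset.subset_univ s)
  intro v _ hv
  exact hw.supp v hv

lemma cell_eq (s : Finset V) : cell s = convexHull ℝ (p '' (s : Set V)) := by
  apply Set.Subset.antisymm
  · apply cell_subset_of (convex_convexHull ℝ _)
    intro v hv
    exact subset_convexHull ℝ _ ⟨v, hv, rfl⟩
  · apply convexHull_min _ (cell_convex s)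
    rintro _ ⟨v, hv, rfl⟩
    exact ⟨_, wt_single hv, pt_single v⟩

lemma cell_mono {s t : Finset V} (h : s ⊆ t) : cell s ⊆ cell t := by
  rintro x ⟨w, hw, e⟩
  exact ⟨w, hw.mono h, e⟩

lemma cell_inter {s t : Finset V} (hs : IsFaceC s) (ht : IsFaceC t) :
    cell s ∩ cell t = cell (s ∩ t) := by
  apply Set.Subset.antisymm
  · rintro x ⟨⟨w, hw, e⟩, ⟨w', hw', e'⟩⟩
    have h : w = w' := uniq hs ht hw hw' (e.trans e'.symm)
    subst h
    refine ⟨w, ⟨hw.nonneg, ?_, hw.sum⟩, e⟩
    intro v hv
    rw [Finset.mem_inter, not_and_or] at hv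
    rcases hv with hv | hv
    · exact hw.supp v hv
    · exact hw'.supp v hv
  · exact Set.subset_inter (cell_mono Finset.inter_subset_left) (cell_mono Finset.inter_subset_right)

lemma cell_subset_iff {s t : Finset V} (hs : IsFaceC s) (ht : IsFaceC t) :
    cell s ⊆ cell t ↔ s ⊆ t := by
  refine ⟨?_, cell_mono⟩
  intro h v hv
  obtain ⟨w, hw, e⟩ := h ⟨_, wt_single hv, rfl⟩
  have h1 : w = Pi.single v 1 := uniq ht hs hw (wt_single hv) e
  by_contra hvt
  have h2 := hw.supp v hvt
  rw [h1] at h2
  simp at h2

lemma face_cell {s t : Finset V} (hs : IsFaceC s) (hts : t ⊆ s) : IsFace (cell s) (cell t) := by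
  refine ⟨cell_convex t, cell_mono hts, ?_⟩
  rintro _ ⟨w, hw, rfl⟩ _ ⟨w', hw', rfl⟩ _ ⟨w'', hw'', rfl⟩ ⟨a, c, ha, hc, hac, e⟩
  have h1 : (fun v => a * w v + c * w' v) = w'' := by
    apply uniq hs (hs.mono hts) (wt_comb ha.le hc.le hac hw hw') hw''
    rw [pt_comb]
    exact e
  refine ⟨w, ⟨hw.nonneg, ?_, hw.sum⟩, rfl⟩
  intro v hv
  have h2 := congrFun h1 v
  rw [hw''.supp v hv] at h2
  have h3 := mul_nonneg ha.le (hw.nonneg v)
  have h4 := mul_nonneg hc.le (hw'.nonneg v)
  have h5 : a * w v = 0 := by linarith
  rcases mul_eq_zero.1 h5 with h6 | h6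
  · exact absurd h6 ha.ne'
  · exact h6

lemma face_is_cell {s : Finset V} {F : Set (Eu 4)} (h : IsFace (cell s) F) :
    ∃ t ⊆ s, F = cell t := by
  classical
  refine ⟨s.filter fun v => p v ∈ F, Finset.filter_subset _ _, ?_⟩
  apply Set.Subset.antisymm
  · intro x hx
    obtain ⟨w, hw, e⟩ := h.2.subset hx
    refine ⟨w, ⟨hw.nonneg, ?_, hw.sum⟩, e⟩
    intro v hv
    by_cases hvs : v ∈ s
    · by_contra hne
      apply hv
      rw [Finset.mem_filter]
      refine ⟨hvs, ?_⟩
      have hpos : 0 < w v := lt_of_le_of_ne (hw.nonneg v) (Ne.symm hne)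
      have hle : w v ≤ 1 := by
        rw [← hw.sum]
        exact Finset.single_le_sum (fun u _ => hw.nonneg u) (Finset.mem_univ v)
      rcases eq_or_lt_of_le hle with h1 | h1
      · have h2 : w = Pi.single v 1 := by
          have h3 : ∑ u ∈ Finset.univ.erase v, w u = 0 := by
            have := Finset.add_sum_erase Finset.univ w (Finset.mem_univ v)
            rw [hw.sum, h1] at this
            linarith
          have h4 := (Finset.sum_eq_zero_iff_of_nonneg (fun u _ => hw.nonneg u)).1 h3
          funext u
          by_cases hu : u = v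
          · subst hu; simp [h1]
          · rw [h4 u (Finset.mem_erase.2 ⟨hu, Finset.mem_univ u⟩)]
            simp [hu]
        rw [h2, pt_single] at e
        rw [e]; exact hx
      · set w' : V → ℝ := fun u => if u = v then 0 else w u / (1 - w v) with hw'
        have h1' : 0 < 1 - w v := by linarith
        have h3 : Wt s w' := by
          refine ⟨?_, ?_, ?_⟩
          · intro u
            simp only [hw']
            split_ifs
            · exact le_rfl
            · exact div_nonneg (hw.nonneg u) h1'.le
          · intro u hu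
            simp only [hw']
            split_ifs
            · rfl
            · rw [hw.supp u hu, zero_div]
          · rw [← Finset.add_sum_erase Finset.univ w' (Finset.mem_univ v)]
            have h4 : ∑ u ∈ Finset.univ.erase v, w' u
                = ∑ u ∈ Finset.univ.erase v, w u / (1 - w v) := by
              apply Finset.sum_congr rfl
              intro u hu
              simp only [hw', if_neg (Finset.ne_of_mem_erase hu)]
            rw [h4, ← Finset.sum_div]
            have := Finset.add_sum_erase Finset.univ w (Finset.mem_univ v)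
            rw [hw.sum] at this
            have h5 : ∑ u ∈ Finset.univ.erase v, w u = 1 - w v := by linarith
            rw [h5, div_self h1'.ne']
            simp [hw']
        refine h.2.left_mem_of_mem_openSegment (x := p v) ⟨_, wt_single hvs, pt_single v⟩
          (y := pt w') ⟨w', h3, rfl⟩ hx ⟨w v, 1 - w v, hpos, h1', by ring, ?_⟩
        rw [← pt_single v, ← pt_comb, ← e]
        congr 1
        funext u
        by_cases hu : u = v
        · subst hu; simp [hw']
        · simp only [hw', if_neg hu, Pi.single_apply]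
          field_simp
          ring
    · exact hw.supp v hvs
  · apply cell_subset_of h.1
    intro v hv
    exact (Finset.mem_filter.1 hv).2

def K : Set (Set (Eu 4)) := {P | ∃ s, IsFaceC s ∧ cell s = P}

lemma K_complex : IsComplex K := by
  refine ⟨?_, ?_, ?_, ?_⟩
  · apply (Set.finite_range cell).subset
    rintro P ⟨s, _, rfl⟩
    exact ⟨s, rfl⟩
  · rintro P ⟨s, _, rfl⟩
    exact ⟨p '' (s : Set V), (Set.toFinite _), cell_eq s⟩
  · rintro P ⟨s, hs, rfl⟩ F hF
    obtain ⟨t, hts, rfl⟩ := face_is_cell hF
    exact ⟨t, hs.mono hts, rfl⟩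
  · rintro P ⟨s, hs, rfl⟩ Q ⟨t, ht, rfl⟩
    rw [cell_inter hs ht]
    exact ⟨face_cell hs Finset.inter_subset_left, face_cell ht Finset.inter_subset_right⟩

lemma K_equiv : EquivC K := by
  refine ⟨OrderIso.symm ?_⟩
  refine RelIso.ofSurjective (OrderEmbedding.ofMapLEIff
    (fun s : {s : Finset V // IsFaceC s} => (⟨cell s.1, s.1, s.2, rfl⟩ :
      {P : Set (Eu 4) // P ∈ K})) ?_) ?_
  · intro s t
    exact cell_subset_iff s.2 t.2
  · rintro ⟨P, s, hs, rfl⟩
    exact ⟨⟨s, hs⟩, rfl⟩

/-- `ℝ^4` contains a complex combinatorially equivalent to `𝒞`, so `b(𝒞) ≤ 4`. -/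
theorem result : (∃ K : Set (Set (Eu 4)), IsComplex K ∧ EquivC K) ∧ b ≤ 4 :=
  ⟨⟨K, K_complex, K_equiv⟩, Nat.sInf_le ⟨K, K_complex, K_equiv⟩⟩

end Pool.Agent.Results.MP_cc703c_co.FourSpace
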